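import Mathlib

/-!
# Reverse-free sequences from a measure on all subsets
-/

set_option autoImplicit false

open MeasureTheory

namespace Pool.Agent.DA

variable {K : Type} [MeasurableSpace K] [DiscreteMeasurableSpace K]

/-- the truncated set mapping -/
noncomputable def tr (E : List K → Finset K) (n : ℕ) (t : List K) : Finset K :=
  if (E t).card ≤ n then E t else ∅

open Classical in
/-- iterated integrals of the indicator of `x ∈ E (s ++ [y₁, …, y_j])` -/
noncomputable def J (m : Measure K) (E : List K → Finset K) (n : ℕ) (x : K) :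
    ℕ → List K → ENNReal
  | 0, s => if x ∈ tr E n s then 1 else 0
  | j + 1, s => ∫⁻ y, J m E n x j (s ++ [y]) ∂m

/-- all iterated integrals of length `j` vanish -/
def Good (m : Measure K) (E : List K → Finset K) (j : ℕ) (x : K) (s : List K) : Prop :=
  ∀ n, J m E n x j s = 0

omit [DiscreteMeasurableSpace K] in
theorem sum_zero (m : Measure K) (E : List K → Finset K) (n : ℕ) (F : Finset K) (s : List K) :
    ∑ x ∈ F, J m E n x 0 s ≤ n := by
  classical
  have h1 : ∑ x ∈ F, J m E n x 0 s = ∑ x ∈ F, (if x ∈ tr E n s then (1 : ENNReal) else 0) :=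
    Finset.sum_congr rfl fun x _ => by simp only [J]
  rw [h1, Finset.sum_ite, Finset.sum_const_zero, add_zero, Finset.sum_const, nsmul_eq_mul, mul_one]
  have h2 : (F.filter fun x => x ∈ tr E n s).card ≤ n := by
    have h3 : (F.filter fun x => x ∈ tr E n s) ⊆ tr E n s := fun x hx => (Finset.mem_filter.1 hx).2
    refine (Finset.card_le_card h3).trans ?_
    unfold tr
    split_ifs with h
    · exact h
    · simp
  exact_mod_cast h2

theorem sum_le (m : Measure K) (E : List K → Finset K) (n : ℕ) (F : Finset K) (j : ℕ) :
    ∀ s : List K, ∑ x ∈ F, J m E n x j s ≤ n * (m Set.univ) ^ j := by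
  induction j with
  | zero =>
    intro s
    rw [pow_zero, mul_one]
    exact sum_zero m E n F s
  | succ j ih =>
    intro s
    have h1 : ∑ x ∈ F, J m E n x (j + 1) s = ∫⁻ y, ∑ x ∈ F, J m E n x j (s ++ [y]) ∂m := by
      rw [lintegral_finsetSum _ fun x _ => Measurable.of_discrete]
      exact Finset.sum_congr rfl fun x _ => by simp only [J]
    rw [h1]
    refine (lintegral_mono fun y => ih (s ++ [y])).trans ?_
    rw [lintegral_const, pow_succ, mul_assoc]

theorem countable_bad (m : Measure K) [IsFiniteMeasure m] (E : List K → Finset K) (n j : ℕ)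
    (s : List K) : {x | J m E n x j s ≠ 0}.Countable := by
  have h : ∑' x, J m E n x j s ≠ ⊤ := by
    have h1 : ∑' x, J m E n x j s ≤ n * (m Set.univ) ^ j := by
      rw [ENNReal.tsum_eq_iSup_sum]
      exact iSup_le fun F => sum_le m E n F j s
    refine ne_top_of_le_ne_top ?_ h1
    exact ENNReal.mul_ne_top (ENNReal.natCast_ne_top n) (ENNReal.pow_ne_top (measure_ne_top m _))
  exact Summable.countable_support_ennreal h

theorem ae_good (m : Measure K) [IsFiniteMeasure m] (hm : ∀ x, m {x} = 0)
    (E : List K → Finset K) (j : ℕ) (s : List K) : ∀ᵐ x ∂m, Good m E j x s := by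
  unfold Good
  rw [ae_all_iff]
  intro n
  rw [ae_iff]
  have h := countable_bad m E n j s
  have h2 : m (⋃ x ∈ {x | J m E n x j s ≠ 0}, {x}) = 0 :=
    (measure_biUnion_null_iff h).2 fun x _ => hm x
  rw [Set.biUnion_of_singleton] at h2
  exact h2

omit [DiscreteMeasurableSpace K] in
theorem good_zero {m : Measure K} {E : List K → Finset K} {x : K} {s : List K}
    (h : Good m E 0 x s) : x ∉ E s := by
  intro hx
  have h1 := h (E s).card
  simp only [J, tr, le_refl, if_true, hx] at h1
  exact one_ne_zero h1

theorem good_succ {m : Measure K} {E : List K → Finset K} {j : ℕ} {x : K} {s : List K}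
    (h : Good m E (j + 1) x s) : ∀ᵐ y ∂m, Good m E j x (s ++ [y]) := by
  unfold Good
  rw [ae_all_iff]
  intro n
  have h1 := h n
  simp only [J] at h1
  rw [lintegral_eq_zero_iff Measurable.of_discrete] at h1
  filter_upwards [h1] with y hy
  exact hy

/-- the invariant of the construction -/
def Inv (m : Measure K) (E : List K → Finset K) (L : List K) : Prop :=
  ∀ (i : ℕ) (hi : i < L.length) (j : ℕ), Good m E j (L[i]) (L.drop (i + 1))

theorem step (m : Measure K) [IsFiniteMeasure m] (hm0 : m ≠ 0) (hm : ∀ x, m {x} = 0)
    (E : List K → Finset K) (L : List K) (hL : Inv m E L) : ∃ y, Inv m E (L ++ [y]) := by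
  have h1 : ∀ᵐ y ∂m, ∀ (i : ℕ) (hi : i < L.length) (j : ℕ),
      Good m E j (L[i]) (L.drop (i + 1) ++ [y]) := by
    rw [ae_all_iff]
    intro i
    by_cases hi : i < L.length
    · have h2 : ∀ᵐ y ∂m, ∀ j, Good m E j (L[i]) (L.drop (i + 1) ++ [y]) := by
        rw [ae_all_iff]
        intro j
        exact good_succ (hL i hi (j + 1))
      filter_upwards [h2] with y hy
      exact fun _ => hy
    · exact Filter.Eventually.of_forall fun y hi' => absurd hi' hi
  have h3 : ∀ᵐ y ∂m, ∀ j, Good m E j y [] := by
    rw [ae_all_iff]
    exact fun j => ae_good m hm E j []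
  have hne : (ae m).NeBot := ae_neBot.2 hm0
  obtain ⟨y, hy1, hy2⟩ := (h1.and h3).exists
  refine ⟨y, ?_⟩
  intro i hi j
  rw [List.length_append, List.length_singleton] at hi
  rcases Nat.lt_or_ge i L.length with h | h
  · rw [List.getElem_append_left h, List.drop_append_of_le_length (by omega)]
    exact hy1 i h j
  · have hi' : i = L.length := by omega
    subst hi'
    rw [List.getElem_append_right le_rfl, List.drop_eq_nil_of_le (by simp)]
    simpa using hy2 j

/-- A nonzero finite measure defined on all subsets and vanishing at points gives reverse-free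
sequences for finite set mappings on finite sequences. -/
theorem rev_free (m : Measure K) [IsFiniteMeasure m] (hm0 : m ≠ 0) (hm : ∀ x, m {x} = 0)
    (E : List K → Finset K) :
    ∃ x : ℕ → K, ∀ a k, x a ∉ E ((List.range k).map fun i => x (a + 1 + i)) := by
  classical
  have h0 : Inv m E [] := fun i hi => absurd hi (Nat.not_lt_zero i)
  have hne : Nonempty K := ⟨(step m hm0 hm E [] h0).choose⟩
  choose! f hf using fun (L : List K) (hL : Inv m E L) => step m hm0 hm E L hL
  let L : ℕ → List K := fun n => Nat.rec [] (fun _ l => l ++ [f l]) n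
  have hL0 : L 0 = [] := rfl
  have hLs : ∀ n, L (n + 1) = L n ++ [f (L n)] := fun n => rfl
  have hinv : ∀ n, Inv m E (L n) := by
    intro n
    induction n with
    | zero => exact h0
    | succ n ih => rw [hLs]; exact hf _ ih
  have hmap : ∀ n, L n = (List.range n).map fun i => f (L i) := by
    intro n
    induction n with
    | zero => rfl
    | succ n ih => rw [hLs, List.range_succ, List.map_append, ← ih]; rfl
  refine ⟨fun i => f (L i), ?_⟩
  intro a k
  have h1 := hinv (a + 1 + k) a (by rw [hmap]; simp; omega) 0
  have h2 := good_zero h1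
  have e1 : (L (a + 1 + k))[a]'(by rw [hmap]; simp; omega) = f (L a) := by
    simp only [hmap (a + 1 + k)]
    rw [List.getElem_map, List.getElem_range]
  have e2 : (L (a + 1 + k)).drop (a + 1) = (List.range k).map fun i => f (L (a + 1 + i)) := by
    rw [hmap (a + 1 + k), ← List.map_drop, List.range_add, List.drop_append_of_le_length (by simp),
      List.drop_eq_nil_of_le (by simp), List.nil_append, List.map_map]
    rfl
  rw [e1, e2] at h2
  exact h2

end Pool.Agent.DA
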