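import Mathlib
import Pool.Agent.Lib_helper68.OG16
import Pool.Agent.Lib_helper80.CQ.RF
import Pool.Agent.Lib_helper80.CZ.All
import Pool.Agent.Lib_helper80.DA.Free

/-!
# `P(α)` for all limit ordinals from a measure on all subsets of the real line
-/

set_option autoImplicit false

open MeasureTheory Cardinal Ordinal

namespace Pool.Agent.DA

section general

variable {X : Type} [MeasurableSpace X]

/-- `c` null sets may have a union which is not null -/
def Bad (ν : Measure X) (c : Cardinal.{0}) : Prop :=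
  ∃ A : c.ord.ToType → Set X, (∀ i, ν (A i) = 0) ∧ ν (⋃ i, A i) ≠ 0

theorem bad_card {ν : Measure X} (h0 : ν ≠ 0) (hp : ∀ x, ν {x} = 0) : Bad ν #X := by
  obtain ⟨e⟩ : Nonempty ((#X).ord.ToType ≃ X) := by
    rw [← Cardinal.eq, Cardinal.mk_toType, Cardinal.card_ord]
  refine ⟨fun i => {e i}, fun i => hp _, ?_⟩
  have h : (⋃ i, ({e i} : Set X)) = Set.univ := by
    refine Set.eq_univ_of_forall fun x => Set.mem_iUnion.2 ⟨e.symm x, ?_⟩
    rw [Equiv.apply_symm_apply]
    exact Set.mem_singleton x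
  rw [h]
  exact Measure.measure_univ_ne_zero.2 h0

theorem union_null {ν : Measure X} {lam : Cardinal.{0}} (hmin : ∀ c < lam, ¬ Bad ν c)
    {I : Type} (hI : #I < lam) (A : I → Set X) (hA : ∀ i, ν (A i) = 0) : ν (⋃ i, A i) = 0 := by
  by_contra hcon
  obtain ⟨e⟩ : Nonempty ((#I).ord.ToType ≃ I) := by
    rw [← Cardinal.eq, Cardinal.mk_toType, Cardinal.card_ord]
  refine hmin _ hI ⟨fun i => A (e i), fun i => hA _, ?_⟩
  rw [e.surjective.iUnion_comp A]
  exact hcon

theorem aleph0_lt {ν : Measure X} {lam : Cardinal.{0}} (hbad : Bad ν lam) : ℵ₀ < lam := by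
  by_contra h
  obtain ⟨A, h1, h2⟩ := hbad
  have hc : Countable lam.ord.ToType := by
    rw [← Cardinal.mk_le_aleph0_iff, Cardinal.mk_toType, Cardinal.card_ord]
    exact not_lt.1 h
  exact h2 (measure_iUnion_null h1)

theorem regular {ν : Measure X} {lam : Cardinal.{0}} (hbad : Bad ν lam)
    (hmin : ∀ c < lam, ¬ Bad ν c) : lam.IsRegular := by
  refine ⟨(aleph0_lt hbad).le, ?_⟩
  by_contra hcon
  obtain ⟨A, h1, h2⟩ := hbad
  obtain ⟨s, hs1, hs2⟩ := Order.exists_cof_eq lam.ord.ToType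
  rw [Ordinal.cof_toType] at hs2
  refine h2 ?_
  have h3 : ∀ y : s, ν ((⋃ i : Set.Iio (y : lam.ord.ToType), A i) ∪ A y) = 0 := by
    intro y
    refine measure_union_null ?_ (h1 _)
    refine union_null hmin ?_ _ fun i => h1 i
    have h4 := mk_Iio_lt (y : lam.ord.ToType) (by simp)
    rwa [Cardinal.mk_toType, Cardinal.card_ord] at h4
  have h5 := union_null hmin (by rw [hs2]; exact not_le.1 hcon) _ h3
  refine measure_mono_null ?_ h5
  intro x hx
  obtain ⟨i, hi⟩ := Set.mem_iUnion.1 hx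
  obtain ⟨y, hy, hiy⟩ := hs1 i
  refine Set.mem_iUnion.2 ⟨⟨y, hy⟩, ?_⟩
  rcases hiy.lt_or_eq with h | h
  · exact Or.inl (Set.mem_iUnion.2 ⟨⟨i, h⟩, hi⟩)
  · subst h
    exact Or.inr hi

theorem edt {ν : Measure X} (h0 : ν ≠ 0) {g : X → ℕ → ℕ}
    (hg : ∀ n k, ν {x | g x n = k} ≤ (2⁻¹ : ENNReal) ^ n) {lam : Cardinal.{0}}
    (hmin : ∀ c < lam, ¬ Bad ν c) {κ : Cardinal.{0}} (hκ : κ < lam) :
    CZ.EDT ℕ κ.ord.ToType := by
  intro E
  have h1 : ∀ z, ν {x | ∃ᶠ n in Filter.atTop, g x n = E z n} = 0 := by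
    intro z
    refine measure_setOfPred_frequently_eq_zero (p := fun n x => g x n = E z n) ?_
    refine ne_top_of_le_ne_top ?_ (ENNReal.tsum_le_tsum fun n => hg n (E z n))
    rw [ENNReal.tsum_geometric, ENNReal.one_sub_inv_two, inv_inv]
    exact ENNReal.ofNat_ne_top
  have h2 := union_null hmin (by rwa [Cardinal.mk_toType, Cardinal.card_ord]) _ h1
  have h3 : (⋃ z, {x | ∃ᶠ n in Filter.atTop, g x n = E z n}) ≠ Set.univ := by
    intro h
    rw [h] at h2
    exact h0 (Measure.measure_univ_eq_zero.1 h2)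
  obtain ⟨x, hx⟩ := (Set.ne_univ_iff_exists_notMem _).1 h3
  refine ⟨g x, fun z => ?_⟩
  by_contra hinf
  refine hx (Set.mem_iUnion.2 ⟨z, ?_⟩)
  exact Nat.frequently_atTop_iff_infinite.2 hinf

theorem rf [DiscreteMeasurableSpace X] {ν : Measure X} [IsFiniteMeasure ν]
    {lam : Cardinal.{0}} (hbad : Bad ν lam) : CQ.RF lam.ord.ToType := by
  classical
  obtain ⟨A, h1, h2⟩ := hbad
  have hne : Nonempty lam.ord.ToType := by
    by_contra hcon
    rw [not_nonempty_iff] at hcon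
    exact h2 (measure_iUnion_null h1)
  let _ : MeasurableSpace lam.ord.ToType := ⊤
  have _ : DiscreteMeasurableSpace lam.ord.ToType := ⟨fun _ => trivial⟩
  have hidx : ∀ x, ∃ i : lam.ord.ToType, x ∈ (⋃ i, A i) → x ∈ A i := by
    intro x
    by_cases hx : x ∈ ⋃ i, A i
    · obtain ⟨i, hi⟩ := Set.mem_iUnion.1 hx
      exact ⟨i, fun _ => hi⟩
    · exact ⟨Classical.arbitrary _, fun h => absurd h hx⟩
  choose idx hi using hidx
  set m : Measure lam.ord.ToType := (ν.restrict (⋃ i, A i)).map idx with hm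
  have hm1 : m Set.univ = ν (⋃ i, A i) := by
    rw [hm, Measure.map_apply Measurable.of_discrete MeasurableSet.univ, Set.preimage_univ,
      Measure.restrict_apply_univ]
  have hm0 : m ≠ 0 := by
    intro h
    rw [h] at hm1
    exact h2 hm1.symm
  have hfin : IsFiniteMeasure m := ⟨by rw [hm1]; exact measure_lt_top ν _⟩
  have hpt : ∀ i, m {i} = 0 := by
    intro i
    rw [hm, Measure.map_apply Measurable.of_discrete (MeasurableSet.singleton i),
      Measure.restrict_apply MeasurableSet.of_discrete]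
    refine measure_mono_null ?_ (h1 i)
    rintro x ⟨hx1, hx2⟩
    have hx3 : idx x = i := hx1
    rw [← hx3]
    exact hi x hx2
  intro E
  exact rev_free m hm0 hpt E

/-- A finite nonzero measure on all subsets, with a sequence of functions with values in `ℕ`
whose fibres are small, gives `P(α)` for all `α` divisible by `ω`. -/
theorem pi_all [DiscreteMeasurableSpace X] (ν : Measure X) [IsFiniteMeasure ν] (h0 : ν ≠ 0)
    (g : X → ℕ → ℕ) (hg : ∀ n k, ν {x | g x n = k} ≤ (2⁻¹ : ENNReal) ^ n)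
    {α : Ordinal.{0}} (hα : ω ∣ α) : H68.OG.PI α := by
  have hpt : ∀ x, ν {x} = 0 := by
    intro x
    refine le_antisymm ?_ zero_le
    have h1 : Filter.Tendsto (fun n : ℕ => (2⁻¹ : ENNReal) ^ n) Filter.atTop (nhds 0) :=
      ENNReal.tendsto_pow_atTop_nhds_zero_of_lt_one (by simp)
    refine ge_of_tendsto' h1 fun n => ?_
    refine (measure_mono ?_).trans (hg n (g x n))
    intro y hy
    rw [Set.mem_singleton_iff.1 hy]
    exact rfl
  set lam : Cardinal.{0} := sInf {c | Bad ν c} with hlam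
  have hbad : Bad ν lam := csInf_mem (⟨_, bad_card h0 hpt⟩ : {c | Bad ν c}.Nonempty)
  have hmin : ∀ c < lam, ¬ Bad ν c := fun c hc hb =>
    absurd (csInf_le' (show c ∈ {c | Bad ν c} from hb)) (not_le.2 hc)
  refine CZ.pi_all_of (lam := lam) ?_ (regular hbad hmin) (aleph0_lt hbad) (rf hbad) hα
  intro β hβ hc
  rcases eq_or_ne β 0 with rfl | hβ0
  · exact H68.OG.pi_zero
  · have hinf : ℵ₀ ≤ β.card := by
      rw [Ordinal.aleph0_le_card]
      exact Ordinal.le_of_dvd hβ0 hβ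
    exact CZ.pi_okc hinf (Or.inl (edt h0 hg hmin hc)) hβ le_rfl

end general

/-- the fibres of `x ↦ ⌊2 ^ n * x⌋` in the unit interval -/
theorem fibre (n k : ℕ) : {x : ℝ | ⌊2 ^ n * x⌋₊ = k} ∩ Set.Ico 0 1 ⊆
    Set.Ico ((k : ℝ) / 2 ^ n) (((k : ℝ) + 1) / 2 ^ n) := by
  rintro x ⟨h1, h2, h3⟩
  have h1' : ⌊2 ^ n * x⌋₊ = k := h1
  have hp : (0 : ℝ) < 2 ^ n := by positivity
  rw [Nat.floor_eq_iff (by positivity)] at h1'
  refine ⟨?_, ?_⟩
  · rw [div_le_iff₀ hp, mul_comm]
    exact h1'.1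
  · rw [lt_div_iff₀ hp, mul_comm]
    exact h1'.2

/-- `P(α)` for all `α` divisible by `ω`, if the Lebesgue measure of the Borel sets extends to a
measure of all subsets of `ℝ` -/
theorem pi_real (ν : @Measure ℝ ⊤) (hν : ∀ s : Set ℝ, MeasurableSet s → ν s = volume s)
    {α : Ordinal.{0}} (hα : ω ∣ α) : H68.OG.PI α := by
  have hI : ν (Set.Ico 0 1) = 1 := by
    rw [hν _ measurableSet_Ico, Real.volume_Ico]
    simp
  have hr : ∀ s : Set ℝ, (@Measure.restrict ℝ ⊤ ν (Set.Ico 0 1)) s = ν (s ∩ Set.Ico 0 1) :=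
    fun s => @Measure.restrict_apply ℝ ⊤ ν (Set.Ico 0 1) s trivial
  have hd : @DiscreteMeasurableSpace ℝ ⊤ := @DiscreteMeasurableSpace.mk ℝ ⊤ fun _ => trivial
  have hf : @IsFiniteMeasure ℝ ⊤ (@Measure.restrict ℝ ⊤ ν (Set.Ico 0 1)) := by
    refine @IsFiniteMeasure.mk ℝ ⊤ _ ?_
    rw [hr, Set.univ_inter, hI]
    exact ENNReal.one_lt_top
  refine @pi_all ℝ ⊤ hd (@Measure.restrict ℝ ⊤ ν (Set.Ico 0 1)) hf ?_
    (fun x n => ⌊2 ^ n * x⌋₊) ?_ α hα
  · intro h
    have h1 := hr Set.univ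
    rw [h, Set.univ_inter, hI] at h1
    exact zero_ne_one h1
  · intro n k
    rw [hr]
    refine (measure_mono (μ := ν) (fibre n k)).trans ?_
    rw [hν _ measurableSet_Ico, Real.volume_Ico]
    have h1 : ((k : ℝ) + 1) / 2 ^ n - (k : ℝ) / 2 ^ n = (2⁻¹ : ℝ) ^ n := by
      rw [← sub_div, add_sub_cancel_left, inv_pow, one_div]
    rw [h1, ENNReal.ofReal_pow (by positivity), ENNReal.ofReal_inv_of_pos (by norm_num)]
    simp

end Pool.Agent.DA
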